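import Pool.Agent.H.MP_411355_ag.Defs

set_option autoImplicit false
open MvPolynomial Finsupp

namespace Pool.Agent.H.MP_411355_ag

universe u
variable {T : Type u} [CommRing T]

section one
variable {M : Type u} [AddCommGroup M] [Module T M] [Module.Finite T M] [Module.Projective T M]

theorem loc (p : PrimeSpectrum T) (h : Module.rankAtStalk M p = 1) :
    ∃ g : M →ₗ[T] Localization.AtPrime p.asIdeal, (∀ m, g m = 0 → ∃ s ∉ p.asIdeal, s • m = 0) ∧
      ∃ m, IsUnit (g m) := by
  haveI : Module.Free (Localization.AtPrime p.asIdeal) (LocalizedModule p.asIdeal.primeCompl M) :=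
    Module.free_of_flat_of_isLocalRing
  let e := LinearEquiv.ofFinrankEq (R := Localization.AtPrime p.asIdeal)
    (LocalizedModule p.asIdeal.primeCompl M) (Localization.AtPrime p.asIdeal) (h.trans (by simp))
  let f := LocalizedModule.mkLinearMap p.asIdeal.primeCompl M
  refine ⟨(e.toLinearMap.restrictScalars T).comp f, fun m hm => ?_, ?_⟩
  · obtain ⟨s, hs⟩ := (IsLocalizedModule.eq_zero_iff p.asIdeal.primeCompl f).mp
      (e.map_eq_zero_iff.mp hm)
    exact ⟨s, s.2, hs⟩
  · obtain ⟨⟨m, s⟩, hs⟩ := IsLocalizedModule.surj p.asIdeal.primeCompl f (e.symm 1)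
    refine ⟨m, ?_⟩
    change IsUnit (e (f m))
    rw [← hs, Submonoid.smul_def, ← algebraMap_smul (Localization.AtPrime p.asIdeal), map_smul,
      e.apply_symm_apply, smul_eq_mul, mul_one]
    exact IsLocalization.map_units _ s

theorem faith (h : ∀ p : PrimeSpectrum T, Module.rankAtStalk M p = 1) {t : T} (ht : ∀ m : M, t • m = 0) :
    t = 0 := by
  refine eq_zero_of_localization t fun p hp => ?_
  obtain ⟨g, -, m, hm⟩ := loc ⟨p, hp.isPrime⟩ (h _)
  have := congrArg g (ht m)
  rwa [map_smul, map_zero, Algebra.smul_def, hm.mul_left_eq_zero] at this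

theorem rel (p : PrimeSpectrum T) (h : Module.rankAtStalk M p = 1) (u v : M)
    (huv : ∀ m : M, ∃ a b : T, m = a • u + b • v) :
    ∃ a b : T, (a ∉ p.asIdeal ∨ b ∉ p.asIdeal) ∧ a • u = b • v := by
  obtain ⟨g, h1, m, hm⟩ := loc p h
  obtain ⟨a, b, rfl⟩ := huv m
  obtain ⟨⟨a1, s1⟩, e1⟩ := IsLocalization.surj p.asIdeal.primeCompl (g u)
  obtain ⟨⟨a2, s2⟩, e2⟩ := IsLocalization.surj p.asIdeal.primeCompl (g v)
  obtain ⟨c, hc, e⟩ := h1 ((a2 * s1) • u - (a1 * s2) • v) (by
    simp only [map_sub, map_smul, Algebra.smul_def, map_mul, ← e1, ← e2]; ring)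
  have k : ∀ (y : Localization.AtPrime p.asIdeal) (r a : T) (s s' : p.asIdeal.primeCompl),
      y * algebraMap _ _ s.1 = algebraMap _ _ a → IsUnit (r • y) → c * (a * s') ∉ p.asIdeal := fun y r a s s' e hy => by
    rw [Algebra.smul_def] at hy
    have := (IsLocalization.AtPrime.isUnit_to_map_iff (Localization.AtPrime p.asIdeal) p.asIdeal a).mp
      (e ▸ (isUnit_of_mul_isUnit_right hy).mul (IsLocalization.map_units _ s))
    exact mul_mem (show c ∈ p.asIdeal.primeCompl from hc) (mul_mem this s'.2)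
  refine ⟨c * (a2 * s1), c * (a1 * s2), ?_, by rw [mul_smul, mul_smul c, ← sub_eq_zero, ← smul_sub, e]⟩
  rw [map_add, map_smul, map_smul] at hm
  exact (IsLocalRing.isUnit_or_isUnit_of_isUnit_add hm).symm.imp (k _ _ _ _ _ e2) (k _ _ _ _ _ e1)
end one

variable {σ A : Type} [AddCommGroup A] {w : σ → A} {h : A → ℕ} {I : Ideal (MvPolynomial σ T)}

theorem mk0 {a : A} (f : weightedHomogeneousSubmodule T w a) :
    (Submodule.Quotient.mk f : Piece w I a) = 0 ↔ f.1 ∈ I := Submodule.Quotient.mk_eq_zero _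

theorem Hilb.eq {K : Ideal (MvPolynomial σ T)} (hK : K ∈ Hilb w h T) (hI : I ∈ Hilb w h T) (hle : K ≤ I) : K = I := by
  refine hle.antisymm fun f hf => ?_
  rw [← sum_weightedHomogeneousComponent w f]
  refine finsum_induction (· ∈ K) (zero_mem _) (fun _ _ => add_mem) fun a => ?_
  obtain ⟨_, _, h1⟩ := hK.2 a
  obtain ⟨_, _, h2⟩ := hI.2 a
  have := (Module.bijective_of_surjective_of_rankAtStalk_eq (M := Piece w K a) (N := Piece w I a)
    (φ := Submodule.factor fun x hx => hle hx) (Submodule.factor_surjective _)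
    fun m _ => (h1 _).trans (h2 _).symm).1
  exact (mk0 ⟨_, weightedHomogeneousComponent_mem w f a⟩).mp ((injective_iff_map_eq_zero _).mp this _
    ((mk0 ⟨_, weightedHomogeneousComponent_mem w f a⟩).mpr (hI.1 f hf a)))

theorem Hilb.zero (hI : I ∈ Hilb w h T) {d : σ →₀ ℕ} (hd : h (weight w d) = 0) : monomial d 1 ∈ I := by
  obtain ⟨_, _, h1⟩ := hI.2 (weight w d)
  have := (Module.rankAtStalk_eq_zero_iff_subsingleton (R := T) (M := Piece w I (weight w d))).mp
    (funext fun p => (h1 p).trans hd)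
  exact (mk0 ⟨_, isWeightedHomogeneous_monomial w d 1 rfl⟩).mp (Subsingleton.elim _ 0)

theorem ind {a : A} (P : Submodule T (Piece w I a))
    (hP : ∀ d (hd : weight w d = a), Submodule.Quotient.mk ⟨_, isWeightedHomogeneous_monomial w d (1 : T) hd⟩ ∈ P)
    (m : Piece w I a) : m ∈ P := by
  obtain ⟨⟨f, hf⟩, rfl⟩ := Submodule.Quotient.mk_surjective _ m
  induction hf using IsWeightedHomogeneous.induction_on with
  | zero => exact zero_mem P
  | add p q hp hq h1 h2 => exact add_mem h1 h2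
  | monomial d r hr =>
    convert P.smul_mem r (hP d hr)
    rw [← Submodule.Quotient.mk_smul]
    congr 2
    simp [smul_monomial]

theorem Hilb.faith (hI : I ∈ Hilb w h T) {a : A} (ha : h a = 1) {t : T}
    (ht : ∀ d, weight w d = a → t • monomial d 1 ∈ I) : t = 0 := by
  obtain ⟨_, _, h1⟩ := hI.2 a
  exact MP_411355_ag.faith (fun p => (h1 p).trans ha) (ind (LinearMap.ker (LinearMap.lsmul T _ t)) fun d hd =>
    (Submodule.Quotient.mk_eq_zero _).mpr (ht d hd))

theorem Hilb.rel (hI : I ∈ Hilb w h T) {a : A} (ha : h a = 1) {d1 d2 : σ →₀ ℕ} (h1 : weight w d1 = a)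
    (h2 : weight w d2 = a) (ht : ∀ d, weight w d = a → d = d1 ∨ d = d2 ∨ monomial d 1 ∈ I) (p : PrimeSpectrum T) :
    ∃ a b : T, (a ∉ p.asIdeal ∨ b ∉ p.asIdeal) ∧ a • monomial d1 1 - b • monomial d2 1 ∈ I := by
  obtain ⟨_, _, h3⟩ := hI.2 a
  obtain ⟨a, b, h4, h5⟩ := MP_411355_ag.rel p ((h3 p).trans ha)
    (Submodule.Quotient.mk ⟨_, isWeightedHomogeneous_monomial w d1 (1 : T) h1⟩)
    (Submodule.Quotient.mk ⟨_, isWeightedHomogeneous_monomial w d2 (1 : T) h2⟩) fun m => by
      have := ind (Submodule.span T {Submodule.Quotient.mk ⟨_, isWeightedHomogeneous_monomial w d1 (1 : T) h1⟩,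
        Submodule.Quotient.mk ⟨_, isWeightedHomogeneous_monomial w d2 (1 : T) h2⟩}) (fun d hd => by
          rcases ht d hd with rfl | rfl | e
          · exact Submodule.subset_span (by simp)
          · exact Submodule.subset_span (by simp)
          · rw [(mk0 ⟨_, isWeightedHomogeneous_monomial w d (1 : T) hd⟩).mpr e]; exact zero_mem _) m
      obtain ⟨a, b, e⟩ := Submodule.mem_span_pair.mp this
      exact ⟨a, b, e.symm⟩
  rw [← sub_eq_zero, ← Submodule.Quotient.mk_smul, ← Submodule.Quotient.mk_smul, ← Submodule.Quotient.mk_sub,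
    mk0] at h5
  exact ⟨a, b, h4, h5⟩

variable {ι : Type} (m m' : ι → σ →₀ ℕ)

/-- Coordinate functionals. -/
noncomputable def cc (t t' : ι → T) (j : ι) : MvPolynomial σ T →ₗ[T] T :=
  t j • lcoeff T (m j) + t' j • lcoeff T (m' j)

theorem cc_apply (t t' : ι → T) (j : ι) (f : MvPolynomial σ T) :
    cc m m' t t' j f = t j * coeff (m j) f + t' j * coeff (m' j) f := rfl

/-- Data of a family of ideals. -/
structure Dat [DecidableEq ι] (T : Type u) [CommRing T] where
  t : ι → T
  t' : ι → T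
  u : ι → T
  u' : ι → T
  dual : ∀ i j, cc m m' t t' i (monomial (m j) (u j) + monomial (m' j) (u' j)) = if i = j then 1 else 0
  cl : ∀ f, (∀ j, cc m m' t t' j f = 0) → ∀ i j, cc m m' t t' j (X i * f) = 0

variable [DecidableEq ι] [Fintype ι] {m m'} (D : Dat m m' T)

/-- Basis. -/
noncomputable def Dat.g (j : ι) : MvPolynomial σ T := monomial (m j) (D.u j) + monomial (m' j) (D.u' j)

/-- The ideal. -/
def Dat.K : Ideal (MvPolynomial σ T) where
  carrier := {f | ∀ j, cc m m' D.t D.t' j f = 0}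
  zero_mem' := by simp
  add_mem' := fun a b j => by rw [map_add, a j, b j, add_zero]
  smul_mem' := fun r => by
    induction r using MvPolynomial.induction_on with
    | C r => intro f hf j; rw [smul_eq_mul, C_mul', map_smul, hf j, smul_zero]
    | add p q hp hq => intro f hf j; rw [add_smul, map_add, hp hf j, hq hf j, add_zero]
    | mul_X p i hp => intro f hf; rw [mul_smul]; exact hp (D.cl f hf i)

omit [Fintype ι] in
theorem Dat.dg (i j : ι) : cc m m' D.t D.t' i (D.g j) = if i = j then 1 else 0 := D.dual i j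

theorem Dat.le (hI : ∀ d, monomial d 1 - ∑ j, cc m m' D.t D.t' j (monomial d 1) • D.g j ∈ I) : D.K ≤ I := by
  have : ∀ f, f - ∑ j, cc m m' D.t D.t' j f • D.g j ∈ I := fun f => by
    induction f using MvPolynomial.induction_on' with
    | monomial d r =>
      convert I.mul_mem_left (C r) (hI d) using 1
      rw [show monomial d r = r • monomial d (1 : T) by simp [smul_monomial]]
      simp only [C_mul', smul_sub, map_smul, Finset.smul_sum, smul_assoc]
    | add p q hp hq =>
      convert add_mem hp hq using 1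
      simp only [map_add, add_smul, Finset.sum_add_distrib]; ring
  intro f hf
  simpa [show ∀ j, cc m m' D.t D.t' j f = 0 from hf] using this f

theorem Dat.map {B : Type u} [CommRing B] (E : Dat m m' B) (φ : B →+* T) (h1 : ∀ j, D.t j = φ (E.t j))
    (h2 : ∀ j, D.t' j = φ (E.t' j)) (h3 : ∀ j, D.u j = φ (E.u j)) (h4 : ∀ j, D.u' j = φ (E.u' j)) :
    E.K.map (MvPolynomial.map φ) = D.K := by
  have e : ∀ j f, cc m m' D.t D.t' j (MvPolynomial.map φ f) = φ (cc m m' E.t E.t' j f) := fun j f => by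
    simp [cc_apply, coeff_map, h1, h2]
  refine le_antisymm (Ideal.map_le_iff_le_comap.mpr fun f hf j => by rw [e, hf j, map_zero]) (D.le fun d => ?_)
  convert Ideal.mem_map_of_mem (MvPolynomial.map φ) (show monomial d 1 - ∑ j, cc m m' E.t E.t' j (monomial d 1) •
    E.g j ∈ E.K from fun j => by simp [E.dg]) using 1
  simp only [map_sub, map_sum, ← C_mul', map_mul, map_C, ← e, map_monomial, map_one, Dat.g, map_add, h3, h4]

theorem Dat.hilb [DecidableEq A] (hw : ∀ j, weight w (m' j) = weight w (m j))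
    (hh : ∀ a, h a = (Finset.univ.filter fun j => weight w (m j) = a).card) : D.K ∈ Hilb w h T := by
  refine ⟨fun f hf a j => ?_, fun a => ?_⟩
  · have := hf j
    rw [cc_apply] at this ⊢
    simp only [coeff_weightedHomogeneousComponent, hw]
    split_ifs
    · exact this
    · simp
  let ψ : weightedHomogeneousSubmodule T w a →ₗ[T] ({j // weight w (m j) = a} → T) :=
    LinearMap.pi fun j => (cc m m' D.t D.t' j).comp (Submodule.subtype _)
  have hs : Function.Surjective ψ := fun v => by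
    refine ⟨⟨∑ j : {j // weight w (m j) = a}, v j • D.g j, sum_mem fun j _ => Submodule.smul_mem _ _ (add_mem
      (isWeightedHomogeneous_monomial _ _ _ j.2) (isWeightedHomogeneous_monomial _ _ _ ((hw j).trans j.2)))⟩,
      funext fun i => ?_⟩
    simp [ψ, D.dg, Subtype.coe_inj]
  have hk : (D.K.restrictScalars T).submoduleOf (weightedHomogeneousSubmodule T w a) = LinearMap.ker ψ := by
    ext ⟨f, hf⟩
    refine ⟨fun h => funext fun j => h j, fun h j => ?_⟩
    by_cases e : weight w (m j) = a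
    · exact congrFun h ⟨j, e⟩
    · change cc m m' D.t D.t' j f = 0
      rw [cc_apply, hf.coeff_eq_zero _ e, hf.coeff_eq_zero _ (hw j ▸ e)]; simp
  let e : Piece w D.K a ≃ₗ[T] ({j // weight w (m j) = a} → T) :=
    (Submodule.quotEquivOfEq _ _ hk).trans (ψ.quotKerEquivOfSurjective hs)
  refine ⟨.equiv e.symm, .of_equiv e.symm, fun p => ?_⟩
  haveI := p.nontrivial
  rw [Module.rankAtStalk_eq_of_equiv e, hh]
  simp [Fintype.card_subtype]

/-- Exponent vectors. -/
noncomputable def ex (a : ℕ × ℕ × ℕ) : Fin 3 →₀ ℕ := equivFunOnFinite.symm ![a.1, a.2.1, a.2.2]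

theorem ex_inj {a b : ℕ × ℕ × ℕ} : ex a = ex b ↔ a = b :=
  ⟨fun h => Prod.ext (DFunLike.congr_fun h 0) (Prod.ext (DFunLike.congr_fun h 1) (DFunLike.congr_fun h 2)),
    congrArg _⟩

theorem ex_surj (d : Fin 3 →₀ ℕ) : ∃ i j l, d = ex (i, j, l) :=
  ⟨d 0, d 1, d 2, by ext i; fin_cases i <;> rfl⟩

theorem mono_ex (i j l : ℕ) (r : T) : monomial (ex (i, j, l)) r = r • (X 0 ^ i * X 1 ^ j * X 2 ^ l) := by
  rw [monomial_eq, prod_fintype _ _ (by simp), Fin.prod_univ_three, C_mul']; rfl

theorem wt_ex (w : Fin 3 → A) (i j l : ℕ) : weight w (ex (i, j, l)) = i • w 0 + j • w 1 + l • w 2 := by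
  rw [weight_apply, sum_fintype _ _ (by simp), Fin.sum_univ_three]; rfl

theorem co0 (i j l : ℕ) (f : MvPolynomial (Fin 3) T) : coeff (ex (i, j, l)) (X 0 * f) =
    if i = 0 then 0 else coeff (ex (i - 1, j, l)) f := by
  rw [coeff_X_mul', show ex (i, j, l) - single 0 1 = ex (i - 1, j, l) by ext k; fin_cases k <;> simp [ex]]
  simp [ex]

theorem co1 (i j l : ℕ) (f : MvPolynomial (Fin 3) T) : coeff (ex (i, j, l)) (X 1 * f) =
    if j = 0 then 0 else coeff (ex (i, j - 1, l)) f := by
  rw [coeff_X_mul', show ex (i, j, l) - single 1 1 = ex (i, j - 1, l) by ext k; fin_cases k <;> simp [ex]]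
  simp [ex]

theorem co2 (i j l : ℕ) (f : MvPolynomial (Fin 3) T) : coeff (ex (i, j, l)) (X 2 * f) =
    if l = 0 then 0 else coeff (ex (i, j, l - 1)) f := by
  rw [coeff_X_mul', show ex (i, j, l) - single 2 1 = ex (i, j, l - 1) by ext k; fin_cases k <;> simp [ex]]
  simp [ex]

end Pool.Agent.H.MP_411355_ag
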