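import Pool.Agent.H.MP_411355_ag.A

set_option autoImplicit false
open MvPolynomial Finsupp

namespace Pool.Agent.H.MP_411355_ag

universe u
variable {T : Type u} [CommRing T]

theorem down {n : ℕ} (N : Fin n → ℕ × ℕ × ℕ)
    (h0 : ∀ j, (N j).1 = 0 ∨ ∃ k, N k = ((N j).1 - 1, (N j).2.1, (N j).2.2))
    (h1 : ∀ j, (N j).2.1 = 0 ∨ ∃ k, N k = ((N j).1, (N j).2.1 - 1, (N j).2.2))
    (h2 : ∀ j, (N j).2.2 = 0 ∨ ∃ k, N k = ((N j).1, (N j).2.1, (N j).2.2 - 1))
    {r : T} {f : MvPolynomial (Fin 3) T} (h : ∀ j, r * coeff (ex (N j)) f = 0) (i : Fin 3) (j : Fin n) :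
    r * coeff (ex (N j)) (X i * f) = 0 := by
  change r * coeff (ex ((N j).1, (N j).2.1, (N j).2.2)) _ = 0
  fin_cases i
  · simp only [Fin.zero_eta, co0]; split_ifs with q
    exacts [mul_zero _, ((h0 j).resolve_left q).elim fun k e => e ▸ h k]
  · simp only [Fin.mk_one, co1]; split_ifs with q
    exacts [mul_zero _, ((h1 j).resolve_left q).elim fun k e => e ▸ h k]
  · simp only [Fin.reduceFinMk, co2]; split_ifs with q
    exacts [mul_zero _, ((h2 j).resolve_left q).elim fun k e => e ▸ h k]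

theorem setup (I : Ideal (MvPolynomial (Fin 3) T)) : ∃ (S : Type u) (_ : CommRing S) (ρ : T →+* S)
    (π : MvPolynomial (Fin 3) T →+* S) (a b c : S), (∀ f, f ∈ I ↔ π f = 0) ∧ (∀ r f, π (r • f) = ρ r * π f) ∧
      ∀ i j l r, π (monomial (ex (i, j, l)) r) = ρ r * (a ^ i * b ^ j * c ^ l) :=
  ⟨_, _, (Ideal.Quotient.mk I).comp C, Ideal.Quotient.mk I, Ideal.Quotient.mk I (X 0), Ideal.Quotient.mk I (X 1),
    Ideal.Quotient.mk I (X 2), fun _ => Ideal.Quotient.eq_zero_iff_mem.symm, fun r f => by simp [← C_mul'],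
    fun i j l r => by simp [mono_ex, ← C_mul']⟩

/-- First staircase. -/
def M1 : Fin 10 → ℕ × ℕ × ℕ :=
  ![(0,0,0), (1,0,0), (0,1,0), (0,0,1), (2,0,0), (0,2,0), (0,1,1), (0,0,2), (0,3,0), (0,2,1)]

/-- Second staircase. -/
def M2 : Fin 10 → ℕ × ℕ × ℕ :=
  ![(0,0,0), (1,0,0), (0,1,0), (0,0,1), (2,0,0), (1,0,1), (3,0,0), (0,0,2), (4,0,0), (1,0,2)]

/-- The family. -/
def DD (e : T) (he : e * (1 - e) = 0) : Dat (fun j => ex (M1 j)) (fun j => ex (M2 j)) T where
  t := fun _ => e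
  t' := fun _ => 1 - e
  u := fun _ => e
  u' := fun _ => 1 - e
  dual := fun i j => by
    have h1 : ∀ i j, M1 i = M1 j ↔ j = i := by decide
    have h2 : ∀ i j, M2 i = M2 j ↔ j = i := by decide
    simp only [cc_apply, coeff_add, coeff_monomial, ex_inj, h1, h2, mul_add, mul_ite, he, mul_comm (1 - e) e,
      mul_zero, ite_self]
    split_ifs
    · linear_combination (-2) * he
    · simp
  cl := fun f hf i j => by
    rw [cc_apply, down M1 (by decide) (by decide) (by decide) (fun j => ?_),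
      down M2 (by decide) (by decide) (by decide) (fun j => ?_), add_zero]
    · linear_combination (1 - e) * (cc_apply _ _ _ _ j f).symm.trans (hf j) +
        (coeff (ex (M2 j)) f - coeff (ex (M1 j)) f) * he
    · linear_combination e * (cc_apply _ _ _ _ j f).symm.trans (hf j) +
        (coeff (ex (M1 j)) f - coeff (ex (M2 j)) f) * he

/-- The Hilbert function. -/
def h2 (a : ℤ) : ℕ := if a ∈ ({0, 3, 4, 5, 6, 8, 9, 10, 12, 13} : Finset ℤ) then 1 else 0

theorem wt2 (i j l : ℕ) : weight ![(3 : ℤ), 4, 5] (ex (i, j, l)) = 3 * i + 4 * j + 5 * l := by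
  rw [wt_ex]; simp; ring

theorem DD_hilb (e : T) (he : e * (1 - e) = 0) : (DD e he).K ∈ Hilb ![(3 : ℤ), 4, 5] h2 T := by
  have w1 : ∀ j, weight ![(3 : ℤ), 4, 5] (ex (M1 j)) = ![0, 3, 4, 5, 6, 8, 9, 10, 12, 13] j := fun j => by
    fin_cases j <;> exact wt2 _ _ _
  refine Dat.hilb _ (fun j => ?_) fun a => ?_
  · rw [w1]; fin_cases j <;> exact wt2 _ _ _
  · simp only [w1, h2]
    split_ifs with h
    · fin_cases h <;> decide
    · refine (Finset.card_eq_zero.mpr (Finset.filter_eq_empty_iff.mpr fun j _ e => h ?_)).symm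
      rw [← e]
      fin_cases j <;> decide

theorem cls2 {I : Ideal (MvPolynomial (Fin 3) T)} (hI : I ∈ Hilb ![(3 : ℤ), 4, 5] h2 T) :
    ∃ e he, (DD e he).K = I := by
  obtain ⟨S, _, ρ, π, a, b, c, Q, R, P⟩ := setup I
  have z : a * b = 0 := by simpa [Q, P] using Hilb.zero hI (d := ex (1, 1, 0)) (by rw [wt2]; rfl)
  have F : ∀ (n : ℤ) (t : T), h2 n = 1 → (∀ i j l : ℕ, 3 * (i : ℤ) + 4 * j + 5 * l = n →
      ρ t * (a ^ i * b ^ j * c ^ l) = 0) → t = 0 := fun n t h1 h => Hilb.faith hI h1 fun d hd => by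
    obtain ⟨i, j, l, rfl⟩ := ex_surj d
    rw [Q, smul_monomial, P, smul_eq_mul, mul_one, h i j l (wt2 i j l ▸ hd)]
  let E : S → Ideal T := fun x => Ideal.comap ρ (LinearMap.ker (LinearMap.toSpanSingleton S S x))
  have hE : ∀ x t, t ∈ E x ↔ ρ t * x = 0 := fun x t => Iff.rfl
  have key : (E (a * c) ⊓ E (a ^ 3)) ⊔ (E (b ^ 2) ⊓ E (b * c)) = ⊤ := by
    by_contra hne
    obtain ⟨p, hp, hle⟩ := Ideal.exists_le_maximal _ hne
    obtain ⟨α, β, r1, r2⟩ := Hilb.rel hI (a := 8) rfl (d1 := ex (0, 2, 0)) (d2 := ex (1, 0, 1)) (wt2 ..) (wt2 ..)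
      (fun d hd => by
        obtain ⟨i, j, l, rfl⟩ := ex_surj d
        simp only [wt2, ex_inj, Prod.mk.injEq] at hd ⊢
        omega) ⟨p, hp.isPrime⟩
    obtain ⟨γ, δ, r3, r4⟩ := Hilb.rel hI (a := 9) rfl (d1 := ex (3, 0, 0)) (d2 := ex (0, 1, 1)) (wt2 ..) (wt2 ..)
      (fun d hd => by
        obtain ⟨i, j, l, rfl⟩ := ex_surj d
        simp only [wt2, ex_inj, Prod.mk.injEq] at hd ⊢
        omega) ⟨p, hp.isPrime⟩
    simp only [Q, map_sub, smul_monomial, P, smul_eq_mul, mul_one, pow_zero, pow_one, one_mul] at r2 r4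
    have k1 : α * γ = 0 := F 12 _ rfl fun i j l h => by
      obtain ⟨rfl, rfl, rfl⟩ | ⟨rfl, rfl, rfl⟩ | ⟨rfl, rfl, rfl⟩ :
        (i = 4 ∧ j = 0 ∧ l = 0) ∨ (i = 1 ∧ j = 1 ∧ l = 1) ∨ (i = 0 ∧ j = 3 ∧ l = 0) := by
          have : l < 3 := by omega
          interval_cases l <;> omega
      all_goals rw [map_mul]
      · linear_combination ρ α * a * r4 + ρ α * ρ δ * c * z
      · linear_combination ρ α * ρ γ * c * z
      · linear_combination ρ γ * b * r2 + ρ γ * ρ β * c * z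
    have k2 : β * δ = 0 := F 13 _ rfl fun i j l h => by
      obtain ⟨rfl, rfl, rfl⟩ | ⟨rfl, rfl, rfl⟩ | ⟨rfl, rfl, rfl⟩ :
        (i = 3 ∧ j = 1 ∧ l = 0) ∨ (i = 0 ∧ j = 2 ∧ l = 1) ∨ (i = 1 ∧ j = 0 ∧ l = 2) := by
          have : l < 3 := by omega
          interval_cases l <;> omega
      all_goals rw [map_mul]
      · linear_combination ρ β * ρ δ * a ^ 2 * z
      · linear_combination -ρ β * b * r4 + ρ β * ρ γ * a ^ 2 * z
      · linear_combination -ρ δ * c * r2 - ρ α * b * r4 +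
          ρ α * ρ γ * a ^ 2 * z
    have k3 := congrArg ρ k1
    have k4 := congrArg ρ k2
    rw [map_mul, map_zero] at k3 k4
    have q1 : α * δ ∈ p := hle (Ideal.mem_sup_right ⟨(hE _ _).mpr (by
      rw [map_mul]; linear_combination ρ δ * r2 + a * c * k4), (hE _ _).mpr (by
      rw [map_mul]; linear_combination -ρ α * r4 + a ^ 3 * k3)⟩)
    have q2 : β * γ ∈ p := hle (Ideal.mem_sup_left ⟨(hE _ _).mpr (by
      rw [map_mul]; linear_combination -ρ γ * r2 + b ^ 2 * k3), (hE _ _).mpr (by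
      rw [map_mul]; linear_combination ρ β * r4 + b * c * k4)⟩)
    have q3 := hp.isPrime.mem_or_mem (k1 ▸ zero_mem p : α * γ ∈ p)
    have q4 := hp.isPrime.mem_or_mem (k2 ▸ zero_mem p : β * δ ∈ p)
    have q5 := hp.isPrime.mem_or_mem q1
    have q6 := hp.isPrime.mem_or_mem q2
    tauto
  obtain ⟨e, ⟨e1, e2⟩, e', ⟨e3, e4⟩, hs⟩ := Submodule.mem_sup.mp ((Ideal.eq_top_iff_one _).mp key)
  obtain rfl := eq_sub_of_add_eq' hs
  simp only [SetLike.mem_coe, hE, map_sub, map_one] at e1 e2 e3 e4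
  have he : e * (1 - e) = 0 := F 8 _ rfl fun i j l h => by
    obtain ⟨rfl, rfl, rfl⟩ | ⟨rfl, rfl, rfl⟩ : (i = 0 ∧ j = 2 ∧ l = 0) ∨ (i = 1 ∧ j = 0 ∧ l = 1) := by omega
    all_goals rw [map_mul, map_sub, map_one]
    · linear_combination ρ e * e3
    · linear_combination (1 - ρ e) * e1
  refine ⟨e, he, Hilb.eq (DD_hilb e he) hI (Dat.le _ fun d => ?_)⟩
  obtain ⟨i, j, l, rfl⟩ := ex_surj d
  by_cases h0 : h2 (3 * i + 4 * j + 5 * l) = 0
  · rw [Finset.sum_eq_zero fun k _ => ?_, sub_zero]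
    · exact Hilb.zero hI (wt2 i j l ▸ h0)
    rw [cc_apply, coeff_monomial, coeff_monomial, if_neg, if_neg, mul_zero, mul_zero, add_zero, zero_smul] <;>
    · rw [ex_inj]; intro e; revert h0
      fin_cases k <;> cases e <;> decide
  have : (i, j, l) ∈ [(0,0,0), (1,0,0), (0,1,0), (0,0,1), (2,0,0), (0,2,0), (0,1,1), (0,0,2), (0,3,0), (0,2,1),
      (1,0,1), (3,0,0), (4,0,0), (1,0,2), (2,1,0), (1,1,1), (3,1,0)] := by
    have h1 := h0
    simp only [h2, Finset.mem_insert, Finset.mem_singleton, ite_eq_right_iff, one_ne_zero, imp_false, not_not] at h1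
    revert h0
    have : i < 5 ∧ j < 4 ∧ l < 3 := by omega
    obtain ⟨_, _, _⟩ := this
    interval_cases i <;> interval_cases j <;> interval_cases l <;> decide
  have k := congrArg ρ he
  rw [map_mul, map_zero, map_sub, map_one] at k
  rw [Q]
  fin_cases this <;>
    simp [Fin.sum_univ_succ, cc_apply, coeff_monomial, ex_inj, DD, Dat.g, M1, M2, P, R]
  · linear_combination (1 + ρ e) * e3 - a * c * k
  · linear_combination (1 + ρ e) * e4 - a ^ 3 * k
  · linear_combination (1 + ρ e) * b * e3 - a ^ 4 * k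
  · linear_combination (1 + ρ e) * c * e3 - a * c ^ 2 * k
  · linear_combination (2 - ρ e) * e1 - b ^ 2 * k
  · linear_combination (2 - ρ e) * e2 - b * c * k
  · linear_combination (2 - ρ e) * a * e2 - b ^ 3 * k
  · linear_combination (2 - ρ e) * c * e1 - b ^ 2 * c * k
  · linear_combination a * z
  · linear_combination c * z
  · linear_combination a ^ 2 * z

theorem inj2 {e e' : T} {he : e * (1 - e) = 0} {he' : e' * (1 - e') = 0} (h : (DD e he).K = (DD e' he').K) :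
    e = e' := by
  have k : ∀ {e e' : T} {he he'}, (DD e he).K = (DD e' he').K → e' * (1 - e) = 0 := fun {e e' he he'} h => by
    have : monomial (ex (0, 2, 0)) (1 - e) ∈ (DD e he).K := fun j => by
      fin_cases j <;> simp [cc_apply, coeff_monomial, ex_inj, DD, M1, M2, he]
    have := (h ▸ this) 5
    simp [cc_apply, coeff_monomial, ex_inj, DD, M1, M2] at this
    exact this
  linear_combination k h.symm - k h

theorem main2 (k : Type u) [Field k] : ∃ J : Ideal (MvPolynomial (Fin 3) (k × k)),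
    ∀ (T : Type u) [CommRing T] [Algebra k T], Set.BijOn
      (fun φ : k × k →ₐ[k] T => J.map (MvPolynomial.map φ.toRingHom)) Set.univ (Hilb ![(3 : ℤ), 4, 5] h2 T) := by
  have h0 : ((1, 0) : k × k) * (1 - (1, 0)) = 0 := by ext <;> simp
  refine ⟨(DD _ h0).K, fun T _ _ => ?_⟩
  have h1 : ∀ φ : k × k →ₐ[k] T, φ (1, 0) * (1 - φ (1, 0)) = 0 := fun φ => by simpa using congrArg φ h0
  have h3 : ∀ φ : k × k →ₐ[k] T, (DD _ h0).K.map (MvPolynomial.map φ.toRingHom) = (DD _ (h1 φ)).K := fun φ =>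
    Dat.map _ _ _ (fun _ => rfl) (fun _ => by simp [DD]) (fun _ => rfl) fun _ => by simp [DD]
  have h4 : ∀ x : k × k, x = x.1 • ((1, 0) : k × k) + x.2 • (1 - (1, 0)) := fun x => by ext <;> simp
  simp only [h3]
  refine ⟨fun φ _ => DD_hilb _ _, fun φ _ ψ _ h => AlgHom.ext fun x => ?_, fun I hI => ?_⟩
  · rw [h4 x]; simp only [map_add, map_smul, map_sub, map_one, inj2 h]
  obtain ⟨e, he, rfl⟩ := cls2 hI
  let φ : k × k →ₐ[k] T := AlgHom.ofLinearMap ((LinearMap.toSpanSingleton k T e).coprod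
    (LinearMap.toSpanSingleton k T (1 - e))) (by simp) fun x y => by
      simp only [LinearMap.coprod_apply, LinearMap.toSpanSingleton_apply, Prod.fst_mul, Prod.snd_mul,
        Algebra.smul_def, map_mul]
      linear_combination (algebraMap k T x.1 - algebraMap k T x.2) * (algebraMap k T y.1 - algebraMap k T y.2) * he
  exact ⟨φ, trivial, by simp only [show φ (1, 0) = e by simp [φ]]⟩

end Pool.Agent.H.MP_411355_ag
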