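import Mathlib

set_option autoImplicit false
open MvPolynomial

namespace Pool.Agent.H.MP_411355_ag

universe u

/-- The degree `a` piece of `T[x] / I`. -/
abbrev Piece {σ A : Type} [AddCommGroup A] (w : σ → A) {T : Type u} [CommRing T] (I : Ideal (MvPolynomial σ T))
    (a : A) : Type u :=
  weightedHomogeneousSubmodule T w a ⧸ (I.restrictScalars T).submoduleOf (weightedHomogeneousSubmodule T w a)

/-- The `T`-points of the multigraded Hilbert functor. -/
def Hilb {σ A : Type} [AddCommGroup A] (w : σ → A) (h : A → ℕ) (T : Type u) [CommRing T] :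
    Set (Ideal (MvPolynomial σ T)) :=
  {I | (∀ f ∈ I, ∀ a, weightedHomogeneousComponent w a f ∈ I) ∧
    ∀ a, Module.Finite T (Piece w I a) ∧ Module.Projective T (Piece w I a) ∧
      ∀ p : PrimeSpectrum T, Module.rankAtStalk (Piece w I a) p = h a}

end Pool.Agent.H.MP_411355_ag
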